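import Pool.Agent.HPS.Fin
import Pool.Agent.HPS.Cocy
import Pool.Agent.HPS.Sg4

/-!
# The s-invariant of `H_p` in `RP^3` is `1 - 2p`

`H_p`, `p = q + 1`, is the projective closure of the positive half twist on `p` positively and `p` negatively oriented
strands.  All definitions are in `Pool/Agent/HPS/Lee.lean` (and `pr`, `s0`, `s1`, `U`, `qd`, `fl` in
`Pool/Agent/HPS/Defs.lean`).
-/

set_option autoImplicit false

namespace Pool.Agent.Results.MP_7d3d22_gt.SInvariantHp

open Pool.HPS

/-- The Lee complex of the standard diagram of `H_p` (`p = q + 1`) has a sign assignment, and for every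
sign assignment the Lee generators `s_o`, `s_ō` are cocycles, the quantum filtration degrees of the
classes of `s_o + s_ō` and `s_o - s_ō` are `-2p` and `2 - 2p` (in this order if `p` is even, in the other
order if `p` is odd), and `s(H_p) = 1 - 2p`. -/
theorem result (q : ℕ) :
    (∃ σ, IsSign q σ) ∧ ∀ σ, IsSign q σ →
      (∀ r, r ⊆ cr q →
        dL ℚ (wires q) (hx q) (cr q) σ (sO q 1) r ∈ IL ℚ q r ∧
        dL ℚ (wires q) (hx q) (cr q) σ (sO q (-1)) r ∈ IL ℚ q r) ∧
      IsGreatest {j : ℤ | HasRep q σ (fun r => sO q 1 r + sO q (-1) r) j}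
        (if Even (q + 1) then -2 * (q + 1) else -2 * q) ∧
      IsGreatest {j : ℤ | HasRep q σ (fun r => sO q 1 r - sO q (-1) r) j}
        (if Even (q + 1) then -2 * q else -2 * (q + 1)) ∧
      sInv q σ = 1 - 2 * ((q : ℚ) + 1) :=
  ⟨⟨sgA q, isSign_sgA q⟩, fun σ hσ =>
    ⟨fun _ hr => ⟨sO_cocycle q σ (Or.inl rfl) hr, sO_cocycle q σ (Or.inr rfl) hr⟩,
      (main q hσ).1, (main q hσ).2, sInv_eq q hσ⟩⟩

end Pool.Agent.Results.MP_7d3d22_gt.SInvariantHp
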